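import Pool.Agent.H15.G.R_seed8.W609.CR.Stm

/-!
# Project CR, part LIN: linear changes of coordinates and scaling
-/

set_option autoImplicit false

namespace Pool.Agent.W327.CR

open MvPolynomial Pool.Agent.W609.CR

variable {K : Type} [Field K]

lemma lin_X (A : Matrix (Fin 3) (Fin 3) K) (i : Fin 3) :
    lin A (X i) = ∑ j, C (A i j) * X j := by
  unfold lin
  rw [aeval_X]

lemma lin_comp (A B : Matrix (Fin 3) (Fin 3) K) (f : MvPolynomial (Fin 3) K) :
    lin A (lin B f) = lin (B * A) f := by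
  have h : (lin A).comp (lin B) = lin (B * A) := by
    refine MvPolynomial.algHom_ext fun i => ?_
    rw [AlgHom.comp_apply, lin_X, lin_X, map_sum]
    simp only [Matrix.mul_apply, map_sum, map_mul]
    simp only [MvPolynomial.algHom_C, lin_X, MvPolynomial.algebraMap_eq]
    simp only [Finset.mul_sum, Finset.sum_mul]
    rw [Finset.sum_comm]
    refine Finset.sum_congr rfl fun k _ => Finset.sum_congr rfl fun j _ => ?_
    ring
  rw [← h, AlgHom.comp_apply]

lemma lin_one (f : MvPolynomial (Fin 3) K) : lin (1 : Matrix (Fin 3) (Fin 3) K) f = f := by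
  have h : lin (1 : Matrix (Fin 3) (Fin 3) K) = AlgHom.id K _ := by
    refine MvPolynomial.algHom_ext fun i => ?_
    rw [lin_X, AlgHom.id_apply, Finset.sum_eq_single i]
    · rw [Matrix.one_apply_eq, map_one, one_mul]
    · intro j _ hj
      rw [Matrix.one_apply_ne hj.symm, map_zero, zero_mul]
    · intro h
      exact absurd (Finset.mem_univ _) h
  rw [h, AlgHom.id_apply]

lemma eval_lin (A : Matrix (Fin 3) (Fin 3) K) (v : Fin 3 → K) (f : MvPolynomial (Fin 3) K) :
    eval v (lin A f) = eval (A.mulVec v) f := by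
  have h : (aeval v : MvPolynomial (Fin 3) K →ₐ[K] K).comp (lin A) = aeval (A.mulVec v) := by
    refine MvPolynomial.algHom_ext fun i => ?_
    rw [AlgHom.comp_apply, lin_X, aeval_X, map_sum]
    simp only [map_mul, aeval_X, MvPolynomial.algHom_C]
    rfl
  have h2 := congrArg (fun g : MvPolynomial (Fin 3) K →ₐ[K] K => g f) h
  simpa [MvPolynomial.aeval_eq_eval] using h2

lemma lin_homog (A : Matrix (Fin 3) (Fin 3) K) (f : MvPolynomial (Fin 3) K) (d : ℕ)
    (hf : f.IsHomogeneous d) : (lin A f).IsHomogeneous d := by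
  have h := hf.aeval (fun i => ∑ j, C (A i j) * X j : Fin 3 → MvPolynomial (Fin 3) K) (n := 1)
    (fun i => IsHomogeneous.sum _ _ _ fun j _ => by
      have h1 := (isHomogeneous_C (Fin 3) (A i j)).mul (isHomogeneous_X K j)
      simpa using h1)
  rw [one_mul] at h
  exact h

lemma van_lin (A : Matrix (Fin 3) (Fin 3) K) (v : Fin 3 → K) (m : ℕ)
    (f : MvPolynomial (Fin 3) K) (h : Van (A.mulVec v) m f) : Van v m (lin A f) := by
  unfold Van at h ⊢
  have h1 : lin A f ∈ Ideal.map (lin A) (RingHom.ker (MvPolynomial.eval (A.mulVec v)) ^ m) :=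
    Ideal.mem_map_of_mem _ h
  rw [Ideal.map_pow] at h1
  refine Ideal.pow_right_mono ?_ m h1
  rw [Ideal.map_le_iff_le_comap]
  intro g hg
  rw [Ideal.mem_comap, RingHom.mem_ker]
  rw [RingHom.mem_ker] at hg
  exact (eval_lin A v g).trans hg

lemma lin_inv_lin {A : Matrix (Fin 3) (Fin 3) K} (hA : A.det ≠ 0) (f : MvPolynomial (Fin 3) K) :
    lin A⁻¹ (lin A f) = f := by
  rw [lin_comp, Matrix.mul_nonsing_inv A (isUnit_iff_ne_zero.2 hA), lin_one]

lemma lin_lin_inv {A : Matrix (Fin 3) (Fin 3) K} (hA : A.det ≠ 0) (f : MvPolynomial (Fin 3) K) :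
    lin A (lin A⁻¹ f) = f := by
  rw [lin_comp, Matrix.nonsing_inv_mul A (isUnit_iff_ne_zero.2 hA), lin_one]

/-- the automorphism -/
noncomputable def linE {A : Matrix (Fin 3) (Fin 3) K} (hA : A.det ≠ 0) :
    MvPolynomial (Fin 3) K ≃ₐ[K] MvPolynomial (Fin 3) K :=
  AlgEquiv.ofAlgHom (lin A) (lin A⁻¹)
    (AlgHom.ext fun f => lin_lin_inv hA f) (AlgHom.ext fun f => lin_inv_lin hA f)

lemma linE_apply {A : Matrix (Fin 3) (Fin 3) K} (hA : A.det ≠ 0) (f : MvPolynomial (Fin 3) K) :
    linE hA f = lin A f := rfl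

lemma van_iff {A : Matrix (Fin 3) (Fin 3) K} (hA : A.det ≠ 0) (v : Fin 3 → K) (m : ℕ)
    (f : MvPolynomial (Fin 3) K) : Van (A.mulVec v) m f ↔ Van v m (lin A f) := by
  refine ⟨van_lin A v m f, fun h => ?_⟩
  have h1 : A⁻¹.mulVec (A.mulVec v) = v := by
    rw [Matrix.mulVec_mulVec, Matrix.nonsing_inv_mul A (isUnit_iff_ne_zero.2 hA),
      Matrix.one_mulVec]
  have h2 := van_lin A⁻¹ (A.mulVec v) m (lin A f) (by rw [h1]; exact h)
  rwa [lin_inv_lin hA] at h2

lemma homog_iff {A : Matrix (Fin 3) (Fin 3) K} (hA : A.det ≠ 0) (f : MvPolynomial (Fin 3) K)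
    (d : ℕ) : f.IsHomogeneous d ↔ (lin A f).IsHomogeneous d := by
  refine ⟨lin_homog A f d, fun h => ?_⟩
  have h2 := lin_homog A⁻¹ _ d h
  rwa [lin_inv_lin hA] at h2

lemma mem_VS {ι : Type} (v : ι → Fin 3 → K) (w : ι → ℕ) (d : ℕ) (f : MvPolynomial (Fin 3) K) :
    f ∈ VS v w d ↔ f.IsHomogeneous d ∧ ∀ i, Van (v i) (w i) f := by
  unfold VS Van
  rw [Submodule.mem_inf, MvPolynomial.mem_homogeneousSubmodule, Submodule.restrictScalars_mem,
    Submodule.mem_iInf]

lemma lin_smul_one (c : K) (f : MvPolynomial (Fin 3) K) (d : ℕ) (hf : f.IsHomogeneous d) :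
    lin (c • (1 : Matrix (Fin 3) (Fin 3) K)) f = C (c ^ d) * f := by
  have h0 : ∀ i, (∑ j, C ((c • (1 : Matrix (Fin 3) (Fin 3) K)) i j) * X j :
      MvPolynomial (Fin 3) K) = C c * X i := by
    intro i
    rw [Finset.sum_eq_single i]
    · rw [Matrix.smul_apply, Matrix.one_apply_eq, smul_eq_mul, mul_one]
    · intro j _ hj
      rw [Matrix.smul_apply, Matrix.one_apply_ne hj.symm, smul_zero, map_zero, zero_mul]
    · intro h
      exact absurd (Finset.mem_univ _) h
  unfold lin
  rw [aeval_def, funext h0, eval₂_eq']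
  conv_rhs => rw [← eval₂_eta f, eval₂_eq', Finset.mul_sum]
  refine Finset.sum_congr rfl fun s hs => ?_
  have hd : ∑ i, s i = d := by
    have h := homog_degree hf hs
    rwa [Finsupp.degree_eq_sum] at h
  have h1 : (∏ i, (C c * X i : MvPolynomial (Fin 3) K) ^ s i) =
      C (c ^ d) * ∏ i, (X i : MvPolynomial (Fin 3) K) ^ s i := by
    simp only [mul_pow]
    rw [Finset.prod_mul_distrib, Finset.prod_pow_eq_pow_sum, hd, map_pow]
  rw [h1, MvPolynomial.algebraMap_eq]
  ring

theorem t_lin : P_LIN := by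
  intro K _
  refine ⟨fun A hA => ⟨lin_homog A, ?_, van_iff hA, ?_⟩, ?_⟩
  · intro f hf
    rw [← linE_apply hA]
    exact (MulEquiv.irreducible_iff (linE hA)).2 hf
  · intro ι _ v w d
    have h : (VS (fun i => A.mulVec (v i)) w d).map
        ((linE hA).toLinearEquiv : MvPolynomial (Fin 3) K →ₗ[K] MvPolynomial (Fin 3) K) =
        VS v w d := by
      ext g
      rw [Submodule.mem_map]
      constructor
      · rintro ⟨f, hf, rfl⟩
        rw [mem_VS] at hf ⊢
        exact ⟨(homog_iff hA f d).1 hf.1, fun i => (van_iff hA _ _ _).1 (hf.2 i)⟩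
      · intro hg
        rw [mem_VS] at hg
        refine ⟨lin A⁻¹ g, ?_, lin_lin_inv hA g⟩
        rw [mem_VS]
        refine ⟨(homog_iff hA _ d).2 ?_, fun i => (van_iff hA _ _ _).2 ?_⟩
        · rw [lin_lin_inv hA]
          exact hg.1
        · rw [lin_lin_inv hA]
          exact hg.2 i
    rw [← h]
    exact (LinearEquiv.finrank_map_eq (linE hA).toLinearEquiv _).symm
  · intro f d hf c hc v m
    have hdet : (c • (1 : Matrix (Fin 3) (Fin 3) K)).det ≠ 0 := by
      rw [Matrix.det_smul, Matrix.det_one, mul_one]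
      exact pow_ne_zero _ hc
    have h1 := van_iff hdet v m f
    rw [Matrix.smul_mulVec, Matrix.one_mulVec, lin_smul_one c f d hf] at h1
    rw [h1]
    unfold Van
    constructor
    · intro h2
      have h3 := Ideal.mul_mem_left _ (C (c ^ d)⁻¹) h2
      rwa [← mul_assoc, ← map_mul, inv_mul_cancel₀ (pow_ne_zero _ hc), map_one, one_mul] at h3
    · intro h2
      exact Ideal.mul_mem_left _ _ h2

end Pool.Agent.W327.CR
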